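import Pool.Agent.Y462.AR.PPR

/-!
# Dihedral Artin groups with odd label act faithfully (job AR2-ODD)

Adapted from helper454's proof for the label `3`.
-/

set_option autoImplicit false

namespace Pool.Agent.Y67.AR

open Pool.Agent.Y462.AR
open Pool.Agent.Y462.PA (Am)

theorem alt_odd {G : Type} [Group G] (a c : G) (k : ℕ) : alt (2 * k + 1) a c = (a * c) ^ k * a := by
  induction k with
  | zero => simp [alt]
  | succ k ih =>
    rw [show 2 * (k + 1) + 1 = (2 * k + 1) + 1 + 1 by ring, alt, alt, ih, pow_succ']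
    simp only [mul_assoc]

theorem alt_odd' {G : Type} [Group G] (a c : G) (k : ℕ) :
    alt (2 * k + 1) c a = c * (a * c) ^ k := by
  have h : alt (2 * k) a c = (a * c) ^ k := by
    induction k with
    | zero => simp [alt]
    | succ k ih =>
      rw [show 2 * (k + 1) = 2 * k + 1 + 1 by ring, alt, alt, ih, pow_succ']
      simp only [mul_assoc]
  rw [alt, h]

theorem zpow_pm (σ : Equiv.Perm (ℝ × ℝ)) (h : ∀ v, σ v = (-v.1, -v.2)) (k : ℤ) (v : ℝ × ℝ) :
    (σ ^ k) v = v ∨ (σ ^ k) v = (-v.1, -v.2) := by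
  have h2 : σ * σ = 1 := by
    apply Equiv.ext
    intro v
    rw [Equiv.Perm.mul_apply, h, h, Equiv.Perm.one_apply]
    simp
  obtain ⟨m, rfl | rfl⟩ := Int.even_or_odd' k
  · left
    rw [zpow_mul, zpow_two, h2, one_zpow, Equiv.Perm.one_apply]
  · right
    rw [zpow_add, zpow_mul, zpow_two, h2, one_zpow, one_mul, zpow_one, h]

/-- the sign conditions -/
def Sg (A B C : ℝ) : Prop := (0 ≤ A ∧ 1 ≤ B ∧ 1 ≤ C) ∨ (A ≤ -1 ∧ B ≤ -1 ∧ C ≤ 0)

theorem sg1 {A B C p q : ℝ} (hA : 0 ≤ A) (hB : 1 ≤ B) (hC : 1 ≤ C) (hp : 0 < p) (hq : q < 0) :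
    0 < (A * p - B * q) * (B * p - C * q) ∧ |p| + |q| < |A * p - B * q| + |B * p - C * q| := by
  have h1 : 0 ≤ A * p := by positivity
  have h2 : -q ≤ -(B * q) := by nlinarith
  have h3 : p ≤ B * p := by nlinarith
  have h4 : -q ≤ -(C * q) := by nlinarith
  have h5 : 0 < A * p - B * q := by linarith
  have h6 : 0 < B * p - C * q := by linarith
  refine ⟨mul_pos h5 h6, ?_⟩
  rw [abs_of_pos h5, abs_of_pos h6, abs_of_pos hp, abs_of_neg hq]
  linarith

theorem sg2 {A B C p q : ℝ} (hA : A ≤ -1) (hB : B ≤ -1) (hC : C ≤ 0) (hp : 0 < p) (hq : q < 0) :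
    0 < (A * p - B * q) * (B * p - C * q) ∧ |p| + |q| < |A * p - B * q| + |B * p - C * q| := by
  have h1 : A * p ≤ -p := by nlinarith
  have h2 : -(B * q) ≤ q := by nlinarith
  have h3 : B * p ≤ -p := by nlinarith
  have h4 : -(C * q) ≤ 0 := by nlinarith
  have h5 : A * p - B * q < 0 := by linarith
  have h6 : B * p - C * q < 0 := by linarith
  refine ⟨mul_pos_of_neg_of_neg h5 h6, ?_⟩
  rw [abs_of_neg h5, abs_of_neg h6, abs_of_pos hp, abs_of_neg hq]
  linarith

theorem sg {A B C p q : ℝ} (h : Sg A B C) (hpq : p * q < 0) :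
    0 < (A * p - B * q) * (B * p - C * q) ∧ |p| + |q| < |A * p - B * q| + |B * p - C * q| := by
  have key : ∀ p q : ℝ, 0 < p → q < 0 →
      0 < (A * p - B * q) * (B * p - C * q) ∧ |p| + |q| < |A * p - B * q| + |B * p - C * q| := by
    intro p q hp hq
    rcases h with h | h
    · exact sg1 h.1 h.2.1 h.2.2 hp hq
    · exact sg2 h.1 h.2.1 h.2.2 hp hq
  rcases mul_neg_iff.1 hpq with ⟨hp, hq⟩ | ⟨hp, hq⟩
  · exact key p q hp hq
  · have h1 := key (-p) (-q) (by linarith) (by linarith)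
    have e1 : A * -p - B * -q = -(A * p - B * q) := by ring
    have e2 : B * -p - C * -q = -(B * p - C * q) := by ring
    rw [e1, e2, abs_neg, abs_neg, abs_neg, abs_neg, neg_mul_neg] at h1
    exact h1

theorem core {G : Type} [Group G] (k : ℕ) (hk : 1 ≤ k) (a c : G)
    (hrel : (a * c) ^ k * a = c * (a * c) ^ k)
    (φ : G →* Equiv.Perm (ℝ × ℝ))
    (hY : ∃ s : ℝ, s * s = 1 ∧ ∀ v, φ ((a * c) ^ k * a) v = (s * (-v.2), s * v.1))
    (hX : ∀ r : ℕ, 0 < r → r < 2 * k + 1 → ∃ s A B C : ℝ, s * s = 1 ∧ Sg A B C ∧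
      ∀ v, φ ((a * c) ^ r) v = (s * (A * v.1 - B * v.2), s * (B * v.1 - C * v.2)))
    (len : G →* Multiplicative ℤ)
    (la : len a = Multiplicative.ofAdd 1) (lc : len c = Multiplicative.ofAdd 1)
    (hgen : ∀ S : Subgroup G, a ∈ S → c ∈ S → ∀ g, g ∈ S) (g : G) (h1 : φ g = 1)
    (h2 : len g = 1) : g = 1 := by
  obtain ⟨X, hXd⟩ : ∃ X : G, X = a * c := ⟨_, rfl⟩
  obtain ⟨Y, hYd⟩ : ∃ Y : G, Y = X ^ k * a := ⟨_, rfl⟩
  rw [← hXd] at hrel hY hX
  rw [← hYd] at hY
  obtain ⟨s, hs, hY⟩ := hY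
  have hXY : X ^ (2 * k + 1) = Y ^ 2 := by
    calc X ^ (2 * k + 1) = X ^ k * X * X ^ k := by
          rw [← pow_succ, ← pow_add]
          congr 1
          ring
      _ = X ^ k * a * (c * X ^ k) := by rw [hXd]; simp only [mul_assoc]
      _ = Y ^ 2 := by rw [← hrel, hYd, pow_two]
  have hz : ∀ v, φ (Y ^ 2) v = (-v.1, -v.2) := by
    intro v
    rw [map_pow, pow_two, Equiv.Perm.mul_apply, hY, hY]
    apply Prod.ext
    · simp only
      linear_combination (-v.1) * hs
    · simp only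
      linear_combination (-v.2) * hs
  have pm : ∀ (j : ℤ) (w : ℝ × ℝ), φ ((Y ^ 2) ^ j) w = w ∨ φ ((Y ^ 2) ^ j) w = (-w.1, -w.2) := by
    intro j w
    rw [map_zpow]
    exact zpow_pm _ hz j w
  have hP : ∀ (j : ℤ) (w : ℝ × ℝ),
      (φ ((Y ^ 2) ^ j) w).1 * (φ ((Y ^ 2) ^ j) w).2 = w.1 * w.2 := by
    intro j w
    rcases pm j w with h | h
    · rw [h]
    · rw [h]; simp only; ring
  have hD : ∀ (j : ℤ) (w : ℝ × ℝ),
      |(φ ((Y ^ 2) ^ j) w).1| + |(φ ((Y ^ 2) ^ j) w).2| = |w.1| + |w.2| := by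
    intro j w
    rcases pm j w with h | h
    · rw [h]
    · rw [h]; simp only [abs_neg]
  have hsabs : ∀ s : ℝ, s * s = 1 → |s| = 1 := by
    intro s hs
    have h3 : |s| * |s| = 1 := by rw [abs_mul_abs_self]; exact hs
    nlinarith [abs_nonneg s]
  let α : Multiplicative ℤ →* Multiplicative ℤ := powMonoidHom 2
  let β : Multiplicative ℤ →* Multiplicative ℤ := powMonoidHom (2 * k + 1)
  have hglue : ∀ j : Multiplicative ℤ, zpowersHom G Y (α j) = zpowersHom G X (β j) := by
    intro j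
    change zpowersHom G Y (j ^ 2) = zpowersHom G X (j ^ (2 * k + 1))
    rw [map_pow, map_pow, zpowersHom_apply, zpowersHom_apply]
    calc (Y ^ Multiplicative.toAdd j) ^ 2 = (Y ^ 2) ^ Multiplicative.toAdd j := by
          rw [← zpow_natCast (Y ^ _), ← zpow_natCast Y, ← zpow_mul, ← zpow_mul, mul_comm]
      _ = (X ^ (2 * k + 1)) ^ Multiplicative.toAdd j := by rw [hXY]
      _ = (X ^ Multiplicative.toAdd j) ^ (2 * k + 1) := by
          rw [← zpow_natCast (X ^ _), ← zpow_natCast X, ← zpow_mul, ← zpow_mul, mul_comm]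
  let θ : Am α β →* G := Am.lift α β (zpowersHom G Y) (zpowersHom G X) hglue
  have θA : ∀ n : Multiplicative ℤ, θ (Am.inl α β n) = Y ^ Multiplicative.toAdd n := by
    intro n
    change Am.lift α β (zpowersHom G Y) (zpowersHom G X) hglue (Am.inl α β n) = _
    rw [Am.lift_inl, zpowersHom_apply]
  have θB : ∀ n : Multiplicative ℤ, θ (Am.inr α β n) = X ^ Multiplicative.toAdd n := by
    intro n
    change Am.lift α β (zpowersHom G Y) (zpowersHom G X) hglue (Am.inr α β n) = _
    rw [Am.lift_inr, zpowersHom_apply]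
  have θK : ∀ j : Multiplicative ℤ, θ (Am.inl α β (α j)) = (Y ^ 2) ^ Multiplicative.toAdd j := by
    intro j
    rw [θA]
    change Y ^ Multiplicative.toAdd (j ^ 2) = _
    rw [toAdd_pow, ← zpow_natCast Y, ← zpow_mul]
    congr 1
  let f : Am α β →* Equiv.Perm ((ℝ × ℝ) × ℤ) := (actR φ len).comp θ
  have hf : ∀ x v, f x v = (φ (θ x) v.1, v.2 + Multiplicative.toAdd (len (θ x))) :=
    fun _ _ => rfl
  have hinj : Function.Injective f := by
    apply Pool.Agent.Y462.AR.PPR.t_ppr (Multiplicative ℤ) (Multiplicative ℤ) (Multiplicative ℤ)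
      ((ℝ × ℝ) × ℤ) α β f {v | v.1.1 * v.1.2 < 0} {v | 0 < v.1.1 * v.1.2}
      (fun v => |v.1.1| + |v.1.2|)
    · rw [Set.disjoint_left]
      intro v h3 h4
      have h3' : v.1.1 * v.1.2 < 0 := h3
      have h4' : 0 < v.1.1 * v.1.2 := h4
      linarith
    · exact ⟨((1, -1), 0), by simp⟩
    · exact ⟨((1, 1), 0), by simp⟩
    · intro n hn v hv
      obtain ⟨m, hm⟩ : ∃ m : ℤ, Multiplicative.toAdd n = 2 * m + 1 := by
        obtain ⟨m, hm | hm⟩ := Int.even_or_odd' (Multiplicative.toAdd n)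
        · exfalso
          apply hn
          refine ⟨Multiplicative.ofAdd m, ?_⟩
          change Multiplicative.ofAdd m ^ 2 = n
          rw [← ofAdd_nsmul, nsmul_eq_mul]
          rw [show ((2 : ℕ) : ℤ) * m = Multiplicative.toAdd n by rw [hm]; rfl]
          exact ofAdd_toAdd n
        · exact ⟨m, hm⟩
      have e1 : θ (Am.inl α β n) = (Y ^ 2) ^ m * Y := by
        rw [θA, hm, zpow_add, zpow_one, zpow_mul, zpow_ofNat Y 2]
      have hv' : 0 < v.1.1 * v.1.2 := hv
      rw [hf, e1, map_mul, Equiv.Perm.mul_apply, hY]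
      refine ⟨?_, ?_⟩
      · change (φ ((Y ^ 2) ^ m) (s * (-v.1.2), s * v.1.1)).1 *
          (φ ((Y ^ 2) ^ m) (s * (-v.1.2), s * v.1.1)).2 < 0
        rw [hP]
        have e2 : s * (-v.1.2) * (s * v.1.1) = -(v.1.1 * v.1.2) := by
          linear_combination (-(v.1.1 * v.1.2)) * hs
        simp only
        rw [e2]
        linarith
      · simp only
        rw [hD]
        simp only
        rw [abs_mul, abs_mul, hsabs s hs, abs_neg, one_mul, one_mul, add_comm]
    · intro n hn v hv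
      have hmpos : (0 : ℤ) < 2 * k + 1 := by positivity
      obtain ⟨m, r, hr0, hr1, hm⟩ : ∃ (m : ℤ) (r : ℕ), 0 < r ∧ r < 2 * k + 1 ∧
          Multiplicative.toAdd n = (2 * k + 1 : ℕ) * m + r := by
        have h5 := Int.emod_nonneg (Multiplicative.toAdd n) hmpos.ne'
        have h6 := Int.emod_lt_of_pos (Multiplicative.toAdd n) hmpos
        have h7 := Int.mul_ediv_add_emod (Multiplicative.toAdd n) (2 * k + 1)
        obtain ⟨r, hr⟩ := Int.eq_ofNat_of_zero_le h5
        refine ⟨Multiplicative.toAdd n / (2 * k + 1), r, ?_, by omega, ?_⟩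
        · by_contra hcon
          have h3 : Multiplicative.toAdd n % (2 * k + 1) = 0 := by omega
          apply hn
          refine ⟨Multiplicative.ofAdd (Multiplicative.toAdd n / (2 * k + 1)), ?_⟩
          change Multiplicative.ofAdd (Multiplicative.toAdd n / (2 * k + 1)) ^ (2 * k + 1) = n
          rw [← ofAdd_nsmul, nsmul_eq_mul]
          rw [show (((2 * k + 1 : ℕ)) : ℤ) * (Multiplicative.toAdd n / (2 * k + 1)) =
            Multiplicative.toAdd n by
              push_cast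
              linarith]
          exact ofAdd_toAdd n
        · rw [hr] at h7
          push_cast
          exact h7.symm
      have e1 : θ (Am.inr α β n) = (Y ^ 2) ^ m * X ^ r := by
        rw [θB, hm, zpow_add, zpow_mul, zpow_natCast, hXY, zpow_natCast]
      have hv' : v.1.1 * v.1.2 < 0 := hv
      obtain ⟨s', A, B, C, hs', hsg, hXr⟩ := hX r hr0 hr1
      obtain ⟨g1, g2⟩ := sg hsg hv'
      rw [hf, e1, map_mul, Equiv.Perm.mul_apply, hXr]
      refine ⟨?_, ?_⟩
      · change 0 < (φ ((Y ^ 2) ^ m) (s' * (A * v.1.1 - B * v.1.2),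
            s' * (B * v.1.1 - C * v.1.2))).1 *
          (φ ((Y ^ 2) ^ m) (s' * (A * v.1.1 - B * v.1.2), s' * (B * v.1.1 - C * v.1.2))).2
        rw [hP]
        have e2 : s' * (A * v.1.1 - B * v.1.2) * (s' * (B * v.1.1 - C * v.1.2)) =
            (A * v.1.1 - B * v.1.2) * (B * v.1.1 - C * v.1.2) := by
          linear_combination ((A * v.1.1 - B * v.1.2) * (B * v.1.1 - C * v.1.2)) * hs'
        simp only
        rw [e2]
        exact g1
      · simp only
        rw [hD]
        simp only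
        rw [abs_mul, abs_mul, hsabs s' hs', one_mul, one_mul]
        exact g2
    · intro j v hv
      have hv' : v.1.1 * v.1.2 < 0 := hv
      rw [hf, θK]
      refine ⟨?_, ?_⟩
      · change (φ ((Y ^ 2) ^ Multiplicative.toAdd j) v.1).1 *
          (φ ((Y ^ 2) ^ Multiplicative.toAdd j) v.1).2 < 0
        rw [hP]
        exact hv'
      · simp only
        rw [hD]
    · intro j v hv
      have hv' : 0 < v.1.1 * v.1.2 := hv
      rw [hf, θK]
      refine ⟨?_, ?_⟩
      · change 0 < (φ ((Y ^ 2) ^ Multiplicative.toAdd j) v.1).1 *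
          (φ ((Y ^ 2) ^ Multiplicative.toAdd j) v.1).2
        rw [hP]
        exact hv'
      · simp only
        rw [hD]
    · intro j hj
      have h3 := congrArg (fun σ : Equiv.Perm ((ℝ × ℝ) × ℤ) => (σ ((0, 0), 0)).2) hj
      simp only [hf, θK, Equiv.Perm.one_apply] at h3
      rw [map_zpow, map_pow, hYd, hXd, map_mul, map_pow, map_mul, la, lc, toAdd_zpow, toAdd_pow,
        toAdd_mul, toAdd_pow, toAdd_mul, toAdd_ofAdd] at h3
      have h4 : Multiplicative.toAdd j = 0 := by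
        simp only [smul_eq_mul, nsmul_eq_mul, zero_add] at h3
        push_cast at h3
        rcases mul_eq_zero.1 h3 with h5 | h5
        · exact h5
        · exfalso
          have : (0 : ℤ) ≤ k := by positivity
          nlinarith
      exact Multiplicative.toAdd.injective (h4.trans toAdd_one.symm)
  have hX1 : X ∈ θ.range := ⟨Am.inr α β (Multiplicative.ofAdd 1), by
    rw [θB, toAdd_ofAdd, zpow_one]⟩
  have hY1 : Y ∈ θ.range := ⟨Am.inl α β (Multiplicative.ofAdd 1), by
    rw [θA, toAdd_ofAdd, zpow_one]⟩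
  have ha1 : a ∈ θ.range := by
    have e : a = (X ^ k)⁻¹ * Y := by rw [hYd]; group
    rw [e]
    exact mul_mem (inv_mem (pow_mem hX1 k)) hY1
  have hc1 : c ∈ θ.range := by
    have e : c = a⁻¹ * X := by rw [hXd]; group
    rw [e]
    exact mul_mem (inv_mem ha1) hX1
  obtain ⟨x, rfl⟩ := hgen θ.range ha1 hc1 g
  have h3 : f x = 1 := by
    apply Equiv.ext
    intro v
    rw [hf, h1, h2, Equiv.Perm.one_apply, Equiv.Perm.one_apply, toAdd_one, add_zero]
  have h4 : x = 1 := hinj (by rw [h3, map_one])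
  rw [h4, map_one]

theorem Usg (hU : S_U) (k : ℕ) (hk : 1 ≤ k) (r : ℕ) (h0 : 0 < r) (h1 : r < 2 * k + 1) :
    Sg (U (2 * k + 1) (2 * r + 1)) (U (2 * k + 1) (2 * r)) (U (2 * k + 1) (2 * r - 1)) := by
  obtain ⟨-, u0, -, um, upos, uper, -, -⟩ := hU (2 * k + 1) (by omega)
  rcases le_or_gt r k with h | h
  · left
    refine ⟨?_, upos _ (by omega) (by push_cast; omega), upos _ (by omega) (by push_cast; omega)⟩
    rcases lt_or_eq_of_le h with h' | h'
    · exact le_trans zero_le_one (upos _ (by omega) (by push_cast; omega))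
    · rw [h']
      have e : ((2 * k + 1 : ℕ) : ℤ) = 2 * (k : ℤ) + 1 := by push_cast; ring
      rw [e] at um
      rw [um]
  · right
    have per : ∀ j : ℤ, U (2 * k + 1) j = -U (2 * k + 1) (j - (2 * k + 1 : ℕ)) := by
      intro j
      rw [← uper]
      congr 1
      ring
    refine ⟨?_, ?_, ?_⟩
    · rw [per]
      have := upos (2 * r + 1 - (2 * k + 1 : ℕ)) (by push_cast; omega) (by push_cast; omega)
      linarith
    · rw [per]
      have := upos (2 * r - (2 * k + 1 : ℕ)) (by push_cast; omega) (by push_cast; omega)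
      linarith
    · rw [per]
      rcases lt_or_eq_of_le (show k + 1 ≤ r by omega) with h' | h'
      · have := upos (2 * r - 1 - (2 * k + 1 : ℕ)) (by push_cast; omega) (by push_cast; omega)
        linarith
      · have e : (2 * (r : ℤ) - 1 - (2 * k + 1 : ℕ)) = 0 := by push_cast; omega
        rw [e, u0, neg_zero]

theorem t_odd (hU : S_U) (hPOW : S_POW) : ∀ k, 1 ≤ k → S_DG (2 * k + 1) := by
  classical
  intro k hk b
  have hm2 : 2 ≤ 2 * k + 1 := by omega
  obtain ⟨hpow, hbr⟩ := hPOW (2 * k + 1) hm2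
  obtain ⟨φ, hφ⟩ := t_lift Bool (Equiv.Perm (ℝ × ℝ)) (fun _ _ => 2 * k + 1)
    (fun s => if s = b then tau (lam (2 * k + 1)) else sig (lam (2 * k + 1))) (by
      intro s t _
      by_cases hs : s = b
      · by_cases ht : t = b
        · rw [hs, ht]
        · simp only [hs, ht, if_true, if_false]
          exact hbr
      · by_cases ht : t = b
        · simp only [hs, ht, if_true, if_false]
          exact hbr.symm
        · simp only [hs, ht, if_false])
  have ha : φ (gen _ b) = tau (lam (2 * k + 1)) := by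
    rw [hφ]; simp
  have hc : φ (gen _ (!b)) = sig (lam (2 * k + 1)) := by
    rw [hφ]; simp
  refine ⟨φ, ha, hc, ?_⟩
  intro len hlen g h1 h2
  have hrel := t_rel Bool (fun _ _ => 2 * k + 1) b (!b) (by omega)
  have hsq : ∀ i : ℕ, ((-1 : ℝ) ^ i) * (-1) ^ i = 1 := by
    intro i
    rw [← mul_pow]
    norm_num
  have hXi : ∀ (i : ℕ) (v : ℝ × ℝ), φ ((gen _ b * gen _ (!b)) ^ i) v =
      ((-1) ^ i * (U (2 * k + 1) (2 * i + 1) * v.1 - U (2 * k + 1) (2 * i) * v.2),
      (-1) ^ i * (U (2 * k + 1) (2 * i) * v.1 - U (2 * k + 1) (2 * i - 1) * v.2)) := by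
    intro i v
    rw [map_pow, map_mul, ha, hc]
    exact hpow i v.1 v.2
  refine core k hk (gen _ b) (gen _ (!b)) ?_ φ ?_ ?_ len (hlen _) (hlen _) ?_ g h1 h2
  · rw [alt_odd, alt_odd'] at hrel
    exact hrel
  · refine ⟨(-1) ^ k, hsq k, fun v => ?_⟩
    obtain ⟨urec, u0, u1, um, upos, uper, -, -⟩ := hU (2 * k + 1) hm2
    have e0 : ((2 * k + 1 : ℕ) : ℤ) = 2 * (k : ℤ) + 1 := by push_cast; ring
    have um' : U (2 * k + 1) (2 * k + 1) = 0 := by rw [← e0]; exact um
    have um1 : U (2 * k + 1) (2 * k) = 1 := by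
      have r1 := urec (2 * k + 1)
      have r2 := uper 1
      rw [e0, u1] at r2
      rw [r2, um', mul_zero, zero_sub, show (2 * (k : ℤ) + 1 - 1) = 2 * k by ring] at r1
      linarith
    have um2 : U (2 * k + 1) (2 * k - 1) = lam (2 * k + 1) := by
      have r1 := urec (2 * k)
      rw [um', um1, mul_one] at r1
      linarith
    rw [map_mul, Equiv.Perm.mul_apply, ha, hXi, um', um1, um2]
    apply Prod.ext
    · change (-1) ^ k * (0 * (v.1 + lam (2 * k + 1) * v.2) - 1 * v.2) = _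
      ring
    · change (-1) ^ k * (1 * (v.1 + lam (2 * k + 1) * v.2) - lam (2 * k + 1) * v.2) = _
      simp only
      ring
  · intro r hr0 hr1
    exact ⟨(-1) ^ r, _, _, _, hsq r, Usg hU k hk r hr0 hr1, hXi r⟩
  · intro S hS1 hS2 g
    apply mem_of_gen S
    intro s
    by_cases hs : s = b
    · rw [hs]; exact hS1
    · have : s = !b := by cases s <;> cases b <;> simp_all
      rw [this]; exact hS2

end Pool.Agent.Y67.AR
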